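import Mathlib

open Matrix Filter Topology

namespace X190.PI

/-- Diagonal growth factors: waiting, measuring (two), testing and measuring (four). -/
noncomputable def D : Matrix (Fin 7) (Fin 7) ℝ := Matrix.diagonal ![1, 4, 16, 4, 16, 2, 8]

/-- The three options at a bar. -/
noncomputable def T : Fin 3 → Matrix (Fin 7) (Fin 7) ℝ
  | 0 => !![1/2, 0, 0, 1, 0, -1, 0;
            0, 0, 0, 0, 0, 0, 0;
            0, 0, 0, 0, 0, 0, 0;
            0, 0, 0, 0, 0, 0, 0;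
            0, 0, 0, 0, 0, 0, 0;
            0, 0, 0, 0, 0, 0, 0;
            0, 0, 0, 0, 0, 0, 0]
  | 1 => !![0, 0, 0, 0, 0, 0, 0;
            1/2, 0, 0, 1, 0, -1, 0;
            1/2, 0, 0, 1, 0, -1, 0;
            0, 0, 0, 0, 0, 0, 0;
            0, 0, 0, 0, 0, 0, 0;
            0, 0, 0, 0, 0, 0, 0;
            0, 0, 0, 0, 0, 0, 0]
  | 2 => !![0, 0, 0, 0, 0, 0, 0;
            0, 0, 0, 0, 0, 0, 0;
            0, 0, 0, 0, 0, 0, 0;
            0, 1, 0, 1, 0, -1, 0;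
            0, 1, 0, 1, 0, -1, 0;
            0, 0, 1, 0, 1, 0, -1;
            0, 0, 1, 0, 1, 0, -1]

noncomputable def R (w : ℝ) : Fin 7 → ℝ := ![w, 0, 0, 0, 0, 0, 0]
noncomputable def Y (u : ℝ) (j : ℕ) : Fin 7 → ℝ := ![0, 4 ^ j * u, 16 ^ j * u, 0, 0, 0, 0]
noncomputable def Z (p q : ℝ) (j : ℕ) : Fin 7 → ℝ :=
  ![0, 0, 0, 4 ^ j * p, 16 ^ j * p, 2 ^ j * q, 8 ^ j * q]

theorem D_R (w : ℝ) : D *ᵥ R w = R w := by
  funext i
  fin_cases i <;> simp [D, R, Matrix.mulVec_diagonal]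

theorem D_Y (u : ℝ) (j : ℕ) : D *ᵥ Y u j = Y u (j + 1) := by
  funext i
  fin_cases i <;> simp [D, Y, Matrix.mulVec_diagonal, pow_succ] <;> ring

theorem D_Z (p q : ℝ) (j : ℕ) : D *ᵥ Z p q j = Z p q (j + 1) := by
  funext i
  fin_cases i <;> simp [D, Z, Matrix.mulVec_diagonal, pow_succ] <;> ring

theorem T0 (v : Fin 7 → ℝ) : T 0 *ᵥ v = R (v 0 / 2 + v 3 - v 5) := by
  funext i
  fin_cases i <;> simp [T, R, Matrix.mulVec, dotProduct, Fin.sum_univ_succ] <;> ring_nf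

theorem T1 (v : Fin 7 → ℝ) : T 1 *ᵥ v = Y (v 0 / 2 + v 3 - v 5) 0 := by
  funext i
  fin_cases i <;> simp [T, Y, Matrix.mulVec, dotProduct, Fin.sum_univ_succ] <;> ring_nf

theorem T2 (v : Fin 7 → ℝ) : T 2 *ᵥ v = Z (v 1 + v 3 - v 5) (v 2 + v 4 - v 6) 0 := by
  funext i
  fin_cases i <;> simp [T, Z, Matrix.mulVec, dotProduct, Fin.sum_univ_succ] <;> ring_nf

theorem R_zero : R 0 = 0 := by
  funext i
  fin_cases i <;> simp [R]

theorem Y_zero (j : ℕ) : Y 0 j = 0 := by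
  funext i
  fin_cases i <;> simp [Y]

theorem Z_zero (j : ℕ) : Z 0 0 j = 0 := by
  funext i
  fin_cases i <;> simp [Z]

theorem T0_R (w : ℝ) : T 0 *ᵥ R w = R (w / 2) := by
  rw [T0]; congr 1; simp [R]

theorem T1_R (w : ℝ) : T 1 *ᵥ R w = Y (w / 2) 0 := by
  rw [T1]; congr 1; simp [R]

theorem T2_R (w : ℝ) : T 2 *ᵥ R w = 0 := by
  rw [T2, ← Z_zero 0]; congr 1 <;> simp [R]

theorem T0_Y (u : ℝ) (j : ℕ) : T 0 *ᵥ Y u j = 0 := by
  rw [T0, ← R_zero]; congr 1; simp [Y]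

theorem T1_Y (u : ℝ) (j : ℕ) : T 1 *ᵥ Y u j = 0 := by
  rw [T1, ← Y_zero 0]; congr 1; simp [Y]

theorem T2_Y (u : ℝ) (j : ℕ) : T 2 *ᵥ Y u j = Z (4 ^ j * u) (16 ^ j * u) 0 := by
  rw [T2]; congr 1 <;> simp [Y]

theorem T0_Z (p q : ℝ) (j : ℕ) : T 0 *ᵥ Z p q j = R (4 ^ j * p - 2 ^ j * q) := by
  rw [T0]; congr 1; simp [Z]

theorem T1_Z (p q : ℝ) (j : ℕ) : T 1 *ᵥ Z p q j = Y (4 ^ j * p - 2 ^ j * q) 0 := by
  rw [T1]; congr 1; simp [Z]

theorem T2_Z (p q : ℝ) (j : ℕ) :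
    T 2 *ᵥ Z p q j = Z (4 ^ j * p - 2 ^ j * q) (16 ^ j * p - 8 ^ j * q) 0 := by
  rw [T2]; congr 1 <;> simp [Z]

/-- One step: `b = true` is a bar, `b = false` is a dot. -/
noncomputable def stp (c : Fin 3) (b : Bool) : Matrix (Fin 7) (Fin 7) ℝ :=
  if b then T c * D else D

/-- The orbit of a vector. -/
noncomputable def orb (c : ℕ → Fin 3) (b : ℕ → Bool) (v : Fin 7 → ℝ) : ℕ → Fin 7 → ℝ
  | 0 => v
  | n + 1 => stp (c n) (b n) *ᵥ orb c b v n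

theorem stp_false (c : Fin 3) (v : Fin 7 → ℝ) : stp c false *ᵥ v = D *ᵥ v := by
  simp [stp]

theorem stp_true (c : Fin 3) (v : Fin 7 → ℝ) : stp c true *ᵥ v = T c *ᵥ (D *ᵥ v) := by
  simp [stp, Matrix.mulVec_mulVec]

theorem orb_congr {c c' : ℕ → Fin 3} (b : ℕ → Bool) (v : Fin 7 → ℝ) (n : ℕ)
    (h : ∀ k < n, c k = c' k) : orb c b v n = orb c' b v n := by
  induction n with
  | zero => rfl
  | succ n ih =>
    simp only [orb]
    rw [ih fun k hk => h k (by omega), h n (by omega)]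

/-- Vectors reachable at time `n` from `v`. -/
def Reach (b : ℕ → Bool) (v : Fin 7 → ℝ) (n : ℕ) (x : Fin 7 → ℝ) : Prop :=
  ∃ c : ℕ → Fin 3, orb c b v n = x

theorem Reach.step {b : ℕ → Bool} {v : Fin 7 → ℝ} {n : ℕ} {x : Fin 7 → ℝ}
    (h : Reach b v n x) (a : Fin 3) : Reach b v (n + 1) (stp a (b n) *ᵥ x) := by
  obtain ⟨c, rfl⟩ := h
  refine ⟨Function.update c n a, ?_⟩
  simp only [orb, Function.update_self]
  rw [orb_congr b v n (c := Function.update c n a) (c' := c)]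
  intro k hk
  rw [Function.update_of_ne (by omega)]

theorem Reach.dot {b : ℕ → Bool} {v : Fin 7 → ℝ} {n : ℕ} {x : Fin 7 → ℝ}
    (h : Reach b v n x) (hb : b n = false) : Reach b v (n + 1) (D *ᵥ x) := by
  have := h.step 0
  rwa [hb, stp_false] at this

theorem Reach.bar {b : ℕ → Bool} {v : Fin 7 → ℝ} {n : ℕ} {x : Fin 7 → ℝ}
    (h : Reach b v n x) (hb : b n = true) (a : Fin 3) :
    Reach b v (n + 1) (T a *ᵥ (D *ᵥ x)) := by
  have := h.step a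
  rwa [hb, stp_true] at this

theorem test_zero (g : ℕ) (s : ℝ) :
    (4 : ℝ) ^ (2 * g) * s - 2 ^ (2 * g) * (4 ^ g * s) = 0 := by
  have h : (4 : ℝ) ^ (2 * g) = 2 ^ (2 * g) * 4 ^ g := by
    rw [pow_mul, pow_mul, ← mul_pow]; norm_num
  rw [h]; ring

theorem test_pair (g k : ℕ) (s : ℝ) :
    (16 : ℝ) ^ k * s - 8 ^ k * (4 ^ g * s) = 4 ^ k * (4 ^ k * s - 2 ^ k * (4 ^ g * s)) := by
  have h1 : (16 : ℝ) ^ k = 4 ^ k * 4 ^ k := by rw [← mul_pow]; norm_num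
  have h2 : (8 : ℝ) ^ k = 4 ^ k * 2 ^ k := by rw [← mul_pow]; norm_num
  rw [h1, h2]; ring

theorem test_ne (g k : ℕ) (hk : k ≠ 2 * g) (s : ℝ) (hs : 1 ≤ |s|) :
    1 ≤ |(4 : ℝ) ^ k * s - 2 ^ k * (4 ^ g * s)| := by
  have h : (4 : ℝ) ^ k * s - 2 ^ k * (4 ^ g * s) =
      (((4 : ℤ) ^ k - 2 ^ k * 4 ^ g : ℤ) : ℝ) * s := by push_cast; ring
  rw [h, abs_mul]
  have hz : ((4 : ℤ) ^ k - 2 ^ k * 4 ^ g) ≠ 0 := by
    intro h0
    have h1 : (2 : ℤ) ^ k * 2 ^ k = 2 ^ k * 2 ^ (2 * g) := by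
      have e1 : (4 : ℤ) ^ k = 2 ^ k * 2 ^ k := by rw [← mul_pow]; norm_num
      have e2 : (4 : ℤ) ^ g = 2 ^ (2 * g) := by rw [pow_mul]; norm_num
      rw [← e1, ← e2]; linarith
    have h2 : (2 : ℤ) ^ k = 2 ^ (2 * g) :=
      mul_left_cancel₀ (pow_ne_zero k (by norm_num)) h1
    exact hk (Int.pow_right_injective (by norm_num) h2)
  have h1 : (1 : ℝ) ≤ |(((4 : ℤ) ^ k - 2 ^ k * 4 ^ g : ℤ) : ℝ)| := by
    rw [← Int.cast_abs]
    exact_mod_cast Int.one_le_abs hz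
  nlinarith [abs_nonneg s]

theorem four_pow_ge (g : ℕ) : (g : ℝ) ≤ 4 ^ (2 * g) := by
  have h : g ≤ 4 ^ (2 * g) :=
    (by omega : g ≤ 2 * g).trans (Nat.lt_pow_self (by norm_num)).le
  exact_mod_cast h

/-- For every word of dots and bars and every time some path is large. -/
theorem large (b : ℕ → Bool) (n : ℕ) :
    ∃ g j : ℕ, (∃ s : ℝ, 1 ≤ |s| ∧ Reach b (Z 1 1 0) n (Z s (4 ^ g * s) j)) ∧
      (1 ≤ g → (∃ w : ℝ, 1 ≤ g * |w| ∧ Reach b (Z 1 1 0) n (R w)) ∧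
        ∃ u : ℝ, 1 ≤ g * |u| ∧ Reach b (Z 1 1 0) n (Y u j)) := by
  induction n with
  | zero =>
    refine ⟨0, 0, ⟨1, by simp, fun _ => 0, ?_⟩, fun h => absurd h (by norm_num)⟩
    simp [orb]
  | succ n ih =>
    obtain ⟨g, j, ⟨s, hs, hS⟩, hWY⟩ := ih
    rcases hb : b n with _ | _
    · refine ⟨g, j + 1, ⟨s, hs, ?_⟩, fun hg => ?_⟩
      · rw [← D_Z]; exact hS.dot hb
      · obtain ⟨⟨w, hw, hW⟩, ⟨u, hu, hU⟩⟩ := hWY hg
        refine ⟨⟨w, hw, ?_⟩, ⟨u, hu, ?_⟩⟩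
        · rw [← D_R]; exact hW.dot hb
        · rw [← D_Y]; exact hU.dot hb
    · refine ⟨j + 1, 0, ?_⟩
      by_cases hj : j + 1 = 2 * g
      · have hg : 1 ≤ g := by omega
        obtain ⟨⟨w, hw, hW⟩, ⟨u, hu, hU⟩⟩ := hWY hg
        have hcast : ((j + 1 : ℕ) : ℝ) = 2 * g := by rw [hj]; push_cast; ring
        refine ⟨⟨4 ^ (j + 1) * u, ?_, ?_⟩, fun _ => ⟨⟨w / 2, ?_, ?_⟩, ⟨w / 2, ?_, ?_⟩⟩⟩
        · rw [abs_mul, hj, abs_of_nonneg (by positivity : (0 : ℝ) ≤ 4 ^ (2 * g))]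
          exact hu.trans (mul_le_mul_of_nonneg_right (four_pow_ge g) (abs_nonneg u))
        · have := hU.bar hb 2
          rw [D_Y, T2_Y] at this
          convert this using 2
          have h1 : (16 : ℝ) ^ (j + 1) = 4 ^ (j + 1) * 4 ^ (j + 1) := by
            rw [← mul_pow]; norm_num
          rw [h1]; ring
        · rw [hcast, abs_div, abs_of_pos (by norm_num : (0 : ℝ) < 2)]
          linarith
        · have := hW.bar hb 0
          rwa [D_R, T0_R] at this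
        · rw [hcast, abs_div, abs_of_pos (by norm_num : (0 : ℝ) < 2)]
          linarith
        · have := hW.bar hb 1
          rwa [D_R, T1_R] at this
      · set th : ℝ := 4 ^ (j + 1) * s - 2 ^ (j + 1) * (4 ^ g * s) with hth
        have h1 : 1 ≤ |th| := test_ne g (j + 1) hj s hs
        have h2 : 1 ≤ ((j + 1 : ℕ) : ℝ) * |th| := by
          have : (1 : ℝ) ≤ ((j + 1 : ℕ) : ℝ) := by exact_mod_cast (by omega : 1 ≤ j + 1)
          nlinarith [abs_nonneg th]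
        refine ⟨⟨th, h1, ?_⟩, fun _ => ⟨⟨th, h2, ?_⟩, ⟨th, h2, ?_⟩⟩⟩
        · have := hS.bar hb 2
          rwa [D_Z, T2_Z, test_pair, ← hth] at this
        · have := hS.bar hb 0
          rwa [D_Z, T0_Z, ← hth] at this
        · have := hS.bar hb 1
          rwa [D_Z, T1_Z, ← hth] at this

theorem large' (b : ℕ → Bool) (n : ℕ) :
    ∃ c : ℕ → Fin 3, 1 ≤ |orb c b (Z 1 1 0) n 3| := by
  obtain ⟨g, j, ⟨s, hs, c, hc⟩, -⟩ := large b n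
  refine ⟨c, ?_⟩
  rw [hc]
  have : Z s (4 ^ g * s) j 3 = 4 ^ j * s := by simp [Z]
  rw [this, abs_mul, abs_of_nonneg (by positivity : (0 : ℝ) ≤ 4 ^ j)]
  have : (1 : ℝ) ≤ 4 ^ j := one_le_pow₀ (by norm_num)
  nlinarith [abs_nonneg s]

end X190.PI
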