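import Pool.Agent.X190.PI.Core

open Matrix Filter Topology

namespace X190.PI

/-- The word with bars exactly at the times `n` with `n + 2` a power of two. -/
def bstar (n : ℕ) : Bool := decide (Nat.log 2 (n + 1) ≠ Nat.log 2 (n + 2))

theorem bstar_dot (m j : ℕ) (hj : j + 1 < 2 ^ m) : bstar (2 ^ m - 1 + j) = false := by
  have hpos : 1 ≤ 2 ^ m := Nat.one_le_two_pow
  have h2 : 2 ^ (m + 1) = 2 * 2 ^ m := by ring
  have e1 : Nat.log 2 (2 ^ m - 1 + j + 1) = m :=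
    Nat.log_eq_of_pow_le_of_lt_pow (by omega) (by omega)
  have e2 : Nat.log 2 (2 ^ m - 1 + j + 2) = m :=
    Nat.log_eq_of_pow_le_of_lt_pow (by omega) (by omega)
  simp [bstar, e1, e2]

theorem bstar_bar (m : ℕ) : bstar (2 ^ (m + 1) - 2) = true := by
  have hpos : 1 ≤ 2 ^ m := Nat.one_le_two_pow
  have h2 : 2 ^ (m + 1) = 2 * 2 ^ m := by ring
  have h3 : 2 ^ (m + 1 + 1) = 2 * 2 ^ (m + 1) := by ring
  have e1 : Nat.log 2 (2 ^ (m + 1) - 2 + 1) = m :=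
    Nat.log_eq_of_pow_le_of_lt_pow (by omega) (by omega)
  have e2 : Nat.log 2 (2 ^ (m + 1) - 2 + 2) = m + 1 :=
    Nat.log_eq_of_pow_le_of_lt_pow (by omega) (by omega)
  simp [bstar, e1, e2]

theorem orb_in (c : ℕ → Fin 3) (v : Fin 7 → ℝ) (m j : ℕ) (hj : j < 2 ^ m) :
    orb c bstar v (2 ^ m - 1 + j) = (fun x => D *ᵥ x)^[j] (orb c bstar v (2 ^ m - 1)) := by
  induction j with
  | zero => rfl
  | succ j ih =>
    rw [← add_assoc, Function.iterate_succ_apply', ← ih (by omega)]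
    simp only [orb]
    rw [bstar_dot m j hj, stp_false]

theorem orb_bar (c : ℕ → Fin 3) (v : Fin 7 → ℝ) (m : ℕ) :
    orb c bstar v (2 ^ (m + 1) - 1) = T (c (2 ^ (m + 1) - 2)) *ᵥ
      ((fun x => D *ᵥ x)^[2 ^ m] (orb c bstar v (2 ^ m - 1))) := by
  have hpos : 1 ≤ 2 ^ m := Nat.one_le_two_pow
  have h2 : 2 ^ (m + 1) = 2 * 2 ^ m := by ring
  obtain ⟨k, hk⟩ : ∃ k, 2 ^ m = k + 1 := ⟨2 ^ m - 1, by omega⟩
  have e1 : 2 ^ (m + 1) - 1 = (2 ^ (m + 1) - 2) + 1 := by omega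
  have e2 : 2 ^ (m + 1) - 2 = 2 ^ m - 1 + k := by omega
  have e3 : (fun x => D *ᵥ x)^[2 ^ m] (orb c bstar v (2 ^ m - 1)) =
      D *ᵥ orb c bstar v (2 ^ (m + 1) - 2) := by
    rw [e2, orb_in c v m k (by omega), ← Function.iterate_succ_apply' (fun x => D *ᵥ x), hk]
  rw [e3, e1]
  simp only [orb]
  rw [bstar_bar, stp_true]

theorem it_R (w : ℝ) (k : ℕ) : (fun x => D *ᵥ x)^[k] (R w) = R w := by
  induction k with
  | zero => rfl
  | succ k ih => rw [Function.iterate_succ_apply', ih]; exact D_R w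

theorem it_Y (u : ℝ) (j k : ℕ) : (fun x => D *ᵥ x)^[k] (Y u j) = Y u (j + k) := by
  induction k with
  | zero => rfl
  | succ k ih => rw [Function.iterate_succ_apply', ih]; exact D_Y u (j + k)

theorem it_Z (p q : ℝ) (j k : ℕ) : (fun x => D *ᵥ x)^[k] (Z p q j) = Z p q (j + k) := by
  induction k with
  | zero => rfl
  | succ k ih => rw [Function.iterate_succ_apply', ih]; exact D_Z p q (j + k)

theorem it_zero (k : ℕ) : (fun x : Fin 7 → ℝ => D *ᵥ x)^[k] 0 = 0 := by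
  induction k with
  | zero => rfl
  | succ k ih => rw [Function.iterate_succ_apply', ih]; simp

/-- The state just after the `m`-th bar. -/
noncomputable def S (c : ℕ → Fin 3) (v : Fin 7 → ℝ) (m : ℕ) : Fin 7 → ℝ :=
  orb c bstar v (2 ^ m - 1)

theorem S_gen (c : ℕ → Fin 3) (v : Fin 7 → ℝ) (m : ℕ) :
    (∃ w, S c v (m + 1) = R w) ∨ (∃ u, S c v (m + 1) = Y u 0) ∨
      ∃ p q, S c v (m + 1) = Z p q 0 := by
  unfold S
  rw [orb_bar]
  generalize c (2 ^ (m + 1) - 2) = a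
  fin_cases a
  · left; exact ⟨_, T0 _⟩
  · right; left; exact ⟨_, T1 _⟩
  · right; right; exact ⟨_, _, T2 _⟩

/-- Good states after a block of length `g`. -/
def Good (g : ℕ) (x : Fin 7 → ℝ) : Prop :=
  (∃ u, x = Y u 0) ∨ ∃ s, x = Z s (4 ^ g * s) 0

theorem S_good (c : ℕ → Fin 3) (v : Fin 7 → ℝ) (m : ℕ)
    (hc : c (2 ^ (m + 1 + 1) - 2) ≠ 0) : Good (2 ^ (m + 1)) (S c v (m + 1 + 1)) := by
  have hS : S c v (m + 1 + 1) = T (c (2 ^ (m + 1 + 1) - 2)) *ᵥ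
      ((fun x => D *ᵥ x)^[2 ^ (m + 1)] (S c v (m + 1))) := orb_bar c v (m + 1)
  rw [hS]
  generalize c (2 ^ (m + 1 + 1) - 2) = a at hc ⊢
  fin_cases a
  · exact absurd rfl hc
  · left; exact ⟨_, T1 _⟩
  · right
    rcases S_gen c v m with ⟨w, hw⟩ | ⟨u, hu⟩ | ⟨p, q, hpq⟩
    · refine ⟨0, ?_⟩
      rw [hw, it_R]
      simpa [Z_zero] using T2_R w
    · refine ⟨4 ^ (2 ^ (m + 1)) * u, ?_⟩
      rw [hu, it_Y]
      refine (T2_Y u _).trans ?_
      rw [zero_add]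
      congr 1
      have h1 : (16 : ℝ) ^ (2 ^ (m + 1)) = 4 ^ (2 ^ (m + 1)) * 4 ^ (2 ^ (m + 1)) := by
        rw [← mul_pow]; norm_num
      rw [h1]; ring
    · refine ⟨4 ^ (2 ^ (m + 1)) * p - 2 ^ (2 ^ (m + 1)) * q, ?_⟩
      rw [hpq, it_Z]
      refine (T2_Z p q _).trans ?_
      rw [zero_add]
      congr 1
      have h1 : (16 : ℝ) ^ (2 ^ (m + 1)) = 4 ^ (2 ^ (m + 1)) * 4 ^ (2 ^ (m + 1)) := by
        rw [← mul_pow]; norm_num
      have h2 : (8 : ℝ) ^ (2 ^ (m + 1)) = 4 ^ (2 ^ (m + 1)) * 2 ^ (2 ^ (m + 1)) := by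
        rw [← mul_pow]; norm_num
      rw [h1, h2]; ring

theorem Good.next {g : ℕ} {x : Fin 7 → ℝ} (h : Good g x) (a : Fin 3) (g' : ℕ)
    (hg' : g' = 2 * g) :
    (T a *ᵥ ((fun x => D *ᵥ x)^[g'] x) = 0) ∨
      (∃ s, T a *ᵥ ((fun x => D *ᵥ x)^[g'] x) = Z s (4 ^ g' * s) 0) := by
  rcases h with ⟨u, rfl⟩ | ⟨s, rfl⟩
  · rw [it_Y, zero_add]
    fin_cases a
    · left; exact T0_Y u g'
    · left; exact T1_Y u g'
    · right
      refine ⟨4 ^ g' * u, (T2_Y u g').trans ?_⟩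
      congr 1
      have h1 : (16 : ℝ) ^ g' = 4 ^ g' * 4 ^ g' := by rw [← mul_pow]; norm_num
      rw [h1]; ring
  · left
    rw [it_Z, zero_add]
    have hz : (4 : ℝ) ^ g' * s - 2 ^ g' * (4 ^ g * s) = 0 := by
      rw [hg']; exact test_zero g s
    fin_cases a
    · refine (T0_Z _ _ _).trans ?_
      rw [hz, R_zero]
    · refine (T1_Z _ _ _).trans ?_
      rw [hz, Y_zero]
    · refine (T2_Z _ _ _).trans ?_
      rw [test_pair, hz, mul_zero, Z_zero]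

theorem Z_next {g : ℕ} (s : ℝ) (a : Fin 3) (g' : ℕ) (hg' : g' = 2 * g) :
    T a *ᵥ ((fun x => D *ᵥ x)^[g'] (Z s (4 ^ g * s) 0)) = 0 := by
  rw [it_Z, zero_add]
  have hz : (4 : ℝ) ^ g' * s - 2 ^ g' * (4 ^ g * s) = 0 := by
    rw [hg']; exact test_zero g s
  fin_cases a
  · refine (T0_Z _ _ _).trans ?_
    rw [hz, R_zero]
  · refine (T1_Z _ _ _).trans ?_
    rw [hz, Y_zero]
  · refine (T2_Z _ _ _).trans ?_
    rw [test_pair, hz, mul_zero, Z_zero]

theorem orb_zero (c : ℕ → Fin 3) (b : ℕ → Bool) (v : Fin 7 → ℝ) (n : ℕ)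
    (h : orb c b v n = 0) (k : ℕ) : orb c b v (n + k) = 0 := by
  induction k with
  | zero => exact h
  | succ k ih =>
    rw [← add_assoc]
    simp only [orb]
    rw [ih, Matrix.mulVec_zero]

theorem eventually_zero (c : ℕ → Fin 3) (v : Fin 7 → ℝ) (m : ℕ)
    (hc : c (2 ^ (m + 1 + 1) - 2) ≠ 0) : S c v (m + 4) = 0 := by
  have h1 := S_good c v m hc
  have hS3 : S c v (m + 3) = T (c (2 ^ (m + 3) - 2)) *ᵥ
      ((fun x => D *ᵥ x)^[2 ^ (m + 2)] (S c v (m + 2))) := orb_bar c v (m + 2)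
  have hS4 : S c v (m + 4) = T (c (2 ^ (m + 4) - 2)) *ᵥ
      ((fun x => D *ᵥ x)^[2 ^ (m + 3)] (S c v (m + 3))) := orb_bar c v (m + 3)
  rcases h1.next (c (2 ^ (m + 3) - 2)) (2 ^ (m + 2)) (by ring) with h | ⟨s, hs⟩
  · have : S c v (m + 3) = 0 := hS3.trans h
    rw [hS4, this, it_zero, Matrix.mulVec_zero]
  · have : S c v (m + 3) = Z s (4 ^ 2 ^ (m + 2) * s) 0 := hS3.trans hs
    rw [hS4, this]
    exact Z_next s _ _ (by ring)

/-- If only the waiting option is used at late bars, the vector is halved at each bar. -/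
theorem orb_wait (c : ℕ → Fin 3) (v : Fin 7 → ℝ)
    (hc : ∀ m, c (2 ^ (m + 1 + 1) - 2) = 0) :
    ∃ w, ∀ m, S c v (m + 2) = R (w / 2 ^ m) := by
  have h0 : S c v 2 = T (c (2 ^ 2 - 2)) *ᵥ
      ((fun x => D *ᵥ x)^[2 ^ 1] (S c v 1)) := orb_bar c v 1
  have hc0 : c (2 ^ 2 - 2) = 0 := hc 0
  rw [hc0, T0] at h0
  obtain ⟨w0, h0⟩ : ∃ w0, S c v 2 = R w0 := ⟨_, h0⟩
  refine ⟨w0, fun m => ?_⟩
  induction m with
  | zero => simpa using h0
  | succ m ih =>
    have h1 : S c v (m + 1 + 2) = T (c (2 ^ (m + 3) - 2)) *ᵥ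
      ((fun x => D *ᵥ x)^[2 ^ (m + 2)] (S c v (m + 2))) := orb_bar c v (m + 2)
    have hc1 : c (2 ^ (m + 3) - 2) = 0 := hc (m + 1)
    rw [h1, ih, it_R, hc1, T0_R, pow_succ]
    congr 1
    ring

theorem tendsto_orb (c : ℕ → Fin 3) (v : Fin 7 → ℝ) (i : Fin 7) :
    Tendsto (fun n => orb c bstar v n i) atTop (𝓝 0) := by
  by_cases h : ∃ m, c (2 ^ (m + 1 + 1) - 2) ≠ 0
  · obtain ⟨m, hm⟩ := h
    have h4 : orb c bstar v (2 ^ (m + 4) - 1) = 0 := eventually_zero c v m hm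
    refine tendsto_const_nhds.congr' ?_
    filter_upwards [eventually_ge_atTop (2 ^ (m + 4) - 1)] with n hn
    obtain ⟨k, rfl⟩ := Nat.exists_eq_add_of_le hn
    rw [orb_zero c bstar v _ h4 k]
    rfl
  · push Not at h
    obtain ⟨w, hw⟩ := orb_wait c v h
    have key : ∀ n, 3 ≤ n → |orb c bstar v n i| ≤ |w| / 2 ^ (Nat.log 2 (n + 1) - 2) := by
      intro n hn
      have h2 : 2 ≤ Nat.log 2 (n + 1) := Nat.le_log_of_pow_le (by norm_num) (by omega)
      obtain ⟨m, hm⟩ := Nat.exists_eq_add_of_le h2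
      have hlo : 2 ^ Nat.log 2 (n + 1) ≤ n + 1 := Nat.pow_log_le_self 2 (by omega)
      have hhi : n + 1 < 2 ^ (Nat.log 2 (n + 1) + 1) := Nat.lt_pow_succ_log_self (by norm_num) _
      rw [hm, pow_succ] at hhi
      rw [hm] at hlo
      have hn' : n = 2 ^ (2 + m) - 1 + (n + 1 - 2 ^ (2 + m)) := by
        have : 1 ≤ 2 ^ (2 + m) := Nat.one_le_two_pow
        omega
      have hval : orb c bstar v n = R (w / 2 ^ m) := by
        have hwm : orb c bstar v (2 ^ (2 + m) - 1) = R (w / 2 ^ m) := by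
          rw [add_comm 2 m]; exact hw m
        rw [hn', orb_in c v (2 + m) _ (by omega), hwm, it_R]
      rw [hval, hm, Nat.add_sub_cancel_left]
      have : |R (w / 2 ^ m) i| ≤ |w / 2 ^ m| := by
        fin_cases i <;> simp [R]
      refine this.trans (le_of_eq ?_)
      rw [abs_div, abs_of_pos (by positivity : (0 : ℝ) < 2 ^ m)]
    have hlog : Tendsto (fun n : ℕ => Nat.log 2 (n + 1) - 2) atTop atTop := by
      refine tendsto_atTop.2 fun k => ?_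
      filter_upwards [eventually_ge_atTop (2 ^ (k + 2))] with n hn
      have : k + 2 ≤ Nat.log 2 (n + 1) := Nat.le_log_of_pow_le (by norm_num) (by omega)
      omega
    have hlim : Tendsto (fun n : ℕ => |w| / 2 ^ (Nat.log 2 (n + 1) - 2)) atTop (𝓝 0) := by
      have h1 : Tendsto (fun k : ℕ => |w| / (2 : ℝ) ^ k) atTop (𝓝 0) := by
        have := (tendsto_pow_atTop_nhds_zero_of_lt_one (r := (1 / 2 : ℝ)) (by norm_num)
          (by norm_num)).const_mul |w|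
        rw [mul_zero] at this
        refine this.congr fun k => ?_
        rw [one_div, inv_pow, div_eq_mul_inv]
      exact h1.comp hlog
    refine squeeze_zero_norm' ?_ hlim
    filter_upwards [eventually_ge_atTop 3] with n hn
    exact key n hn

end X190.PI
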